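import Mathlib
import Pool.Agent.H.MP_aa6101_gt.Main
set_option autoImplicit false
namespace Pool.Agent.Results.MP_76989b_gt.Counter
open Set Topology Filter Pool.Agent.H.MP_aa6101_gt

def Qp (X : Type) [TopologicalSpace X] : Set (X → ℝ) :=
  {f | ∀ x U V, IsOpen U → x ∈ U → IsOpen V → f x ∈ V →
    ∃ W, IsOpen W ∧ W.Nonempty ∧ W ⊆ U ∧ MapsTo f W V}

def MinBdd {X : Type} [TopologicalSpace X] (A : Set X) : Prop :=
  A ⊆ closure (interior A) ∧ interior (closure A) ⊆ A

def OmegaS {X : Type} [TopologicalSpace X] (𝒰 : Set (Set X)) : Prop :=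
  (∀ U ∈ 𝒰, MinBdd U) ∧ ⋃₀ 𝒰 = univ ∧ ∀ F : Set X, F.Finite → ∃ U ∈ 𝒰, F ⊆ U

def GammaS {X : Type} [TopologicalSpace X] (𝒰 : Set (Set X)) : Prop :=
  (∀ U ∈ 𝒰, MinBdd U) ∧ ⋃₀ 𝒰 = univ ∧ ∀ x, {U ∈ 𝒰 | x ∉ U}.Finite

lemma sel {X : Type} (𝒰 : ℕ → Set (Set X)) (K : Finset X) (x₀ : X)
    (h : ∀ n, ∀ U ∈ 𝒰 n, ↑K ⊆ U → Uᶜ.Countable)
    (h' : ∀ n (F : Set X), F.Finite → ∃ U ∈ 𝒰 n, F ⊆ U) :
    ∃ U : ℕ → Set X, (∀ n, U n ∈ 𝒰 n) ∧ ∀ x, ∀ᶠ n in atTop, x ∈ U n := by
  classical
  choose c h1 h2 using fun n (F : Finset X) => h' n F F.finite_toSet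
  have : Nonempty X := ⟨x₀⟩
  choose! e he using fun (U : Set X) (h : Uᶜ.Countable) =>
    (h.insert x₀).exists_eq_range (insert_nonempty _ _)
  let G := fun n (L : Finset (Set X)) => K ∪ Finset.image₂ e L (Finset.range n)
  let L : ℕ → Finset (Set X) := Nat.rec ∅ fun n L => insert (c n (G n L)) L
  have h3 : Monotone L := monotone_nat_of_le_succ fun n => Finset.subset_insert _ _
  refine ⟨fun n => c n (G n (L n)), fun n => h1 _ _, fun x => ?_⟩
  by_cases h4 : ∀ n, x ∈ c n (G n (L n))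
  · exact .of_forall h4
  obtain ⟨m, h4⟩ := not_forall.1 h4
  obtain ⟨i, rfl⟩ := (he _ (h m _ (h1 _ _) (Subset.trans (by simp [G]) (h2 _ _)))).le (Or.inr h4)
  filter_upwards [eventually_gt_atTop m, eventually_gt_atTop i] with n h5 h6
  exact h2 _ _ (Finset.mem_union_right _ (Finset.mem_image₂_of_mem
    (h3 h5 (Finset.mem_insert_self _ _)) (Finset.mem_range.2 h6)))

theorem result : ∃ (X : Type) (_ : TopologicalSpace X), T2Space X ∧
    (∀ 𝒰 : ℕ → Set (Set X), (∀ n, OmegaS (𝒰 n)) →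
      ∃ U : ℕ → Set X, (∀ n, U n ∈ 𝒰 n) ∧ GammaS (range U) ∧ ∀ x, ∀ᶠ n in atTop, x ∈ U n) ∧
    ∃ (f : Qp X) (A : Set (Qp X)), f ∈ closure A ∧
      ¬ ∃ g : ℕ → Qp X, (∀ n, g n ∈ A) ∧ Tendsto g atTop (𝓝 f) := by
  classical
  obtain ⟨D, _, P, _, _, h1, h2, h3, h4, h5, h6⟩ := core
  have := Lib.helper23.uncountable_cantor
  let S : Bool ⊕ I → Set Bool := Sum.elim (fun b => {b}) fun _ => univ
  let F : Bool ⊕ I → Filter (D × Bool) := fun j =>
    P (j.elim (fun _ => none) some) ×ˢ 𝓟 (S j)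
  have h0 (j) : (F j).NeBot := prod_neBot.2 ⟨h1 _, principal_neBot_iff.2 (by
    rcases j with b | a <;> simp [S])⟩
  have hp (j V) (hV : V ∈ P (j.elim (fun _ => none) some)) : V ×ˢ S j ∈ F j :=
    prod_mem_prod hV (mem_principal_self _)
  refine ⟨Ext F, inferInstance, t2 F (fun j U hU => ?_) ?_ fun j d => ?_, fun 𝒰 h𝒰 => ?_, ?_⟩
  · obtain ⟨V, hV, T, hT, h⟩ := mem_prod_iff.1 hU
    exact mem_of_superset (prod_mem_prod (h2 _ V hV) hT) (interior_maximal
      ((Set.prod_mono_left interior_subset).trans h) (isOpen_interior.prod (isOpen_discrete T)))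
  · rintro (a | a) (b | b) h <;> refine Filter.disjoint_prod.2 ?_
    · exact Or.inr (by simpa [S] using h)
    · exact Or.inl (h4 (by simp))
    · exact Or.inl (h4 (by simp))
    · exact Or.inl (h4 (by simpa using h))
  · rw [nhds_prod_eq, Filter.disjoint_prod]
    exact Or.inl (h5 _ _)
  · refine (sel 𝒰 {inr F (.inl false), inr F (.inl true)} (inr F (.inl true))
      (fun n U hU hK => ?_) fun n => (h𝒰 n).2.2).imp fun U ⟨h7, h8⟩ => ?_
    swap
    · refine ⟨h7, ⟨?_, ?_, fun x => ?_⟩, h8⟩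
      · rintro _ ⟨n, rfl⟩
        exact (h𝒰 n).1 _ (h7 n)
      · exact eq_univ_of_forall fun x => (h8 x).exists.elim fun n h => ⟨_, ⟨n, rfl⟩, h⟩
      · have := h8 x
        rw [← Nat.cofinite_eq_atTop] at this
        refine (Finite.image U this).subset ?_
        rintro _ ⟨⟨n, rfl⟩, h⟩
        exact ⟨n, h, rfl⟩
    obtain ⟨h7, h8⟩ := (h𝒰 n).1 U hU
    have h9 (b : Bool) : {d | inl F (d, b) ∈ interior U} ∈ P none := by
      refine (h3 _ _ (isOpen_interior.preimage ((emb F).continuous.comp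
        (continuous_id.prodMk continuous_const)))).resolve_right fun h => ?_
      have h9 := open_ins F (isClosed_closure.isOpen_compl.prod (isOpen_discrete _))
        (hp (.inl b) _ h)
      obtain ⟨d, h10, h11⟩ := meet F h0 (h9.inter isOpen_interior)
        (mem_closure_iff.1 (h7 (hK (by cases b <;> simp))) _ h9 (Or.inl rfl))
      obtain ⟨⟨d, c⟩, ⟨h12, h13⟩, h14⟩ := h10.resolve_left (nomatch ·)
      obtain rfl : c = b := h13
      exact h12 (subset_closure (h14 ▸ h11 :))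
    refine (((countable_range (inl F)).union (countable_range fun b => inr F (.inl b))).union
      ((h6 _ (inter_mem (h9 false) (h9 true))).image fun a => inr F (.inr a))).mono ?_
    rintro (d | b | a) h
    · exact Or.inl (Or.inl ⟨d, rfl⟩)
    · exact Or.inl (Or.inr ⟨b, rfl⟩)
    refine Or.inr ⟨a, fun h10 => h (h8 ?_), rfl⟩
    have h11 : inl F ⁻¹' interior U ∈ F (.inr a) := mem_of_superset (hp (.inr a) _ h10) (by
      rintro ⟨d, _ | _⟩ h
      exacts [h.1.1, h.1.2])
    refine interior_maximal (insert_subset (mem_closure_iff.2 fun V hV h12 => ?_) ?_)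
      (open_ins F (isOpen_interior.preimage (emb F).continuous) h11) (Or.inl rfl)
    · obtain ⟨d, h13, h14⟩ := (h0 _).nonempty_of_mem (inter_mem (hV.2 _ h12) h11)
      exact ⟨_, h13, interior_subset h14⟩
    · exact (image_preimage_subset _ _).trans (interior_subset.trans subset_closure)
  · let ψ : Set I → Ext F → Bool := fun T => Sum.elim Prod.snd (Sum.elim id fun a => a ∈ T)
    let φ : Set I → Qp (Ext F) := fun T => ⟨fun x => if ψ T x then 1 else 0,
      fun x U V hU hx _ hV => by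
        have h7 : IsOpen (inl F '' (univ ×ˢ {ψ T x})) :=
          (emb F).isOpenMap _ (isOpen_univ.prod (isOpen_discrete _))
        refine ⟨U ∩ _, hU.inter h7, ?_, inter_subset_left, ?_⟩
        · rcases x with d | j
          · exact ⟨_, hx, d, ⟨trivial, rfl⟩, rfl⟩
          obtain ⟨V, hV, T', hT, h⟩ := mem_prod_iff.1 (hU.2 j hx)
          obtain ⟨d, hd⟩ := (h1 _).nonempty_of_mem hV
          refine ⟨_, h (mk_mem_prod hd (hT ?_)), (d, ψ T (.inr j)), ⟨trivial, rfl⟩, rfl⟩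
          rcases j with b | a
          exacts [rfl, trivial]
        · rintro _ ⟨-, d, ⟨-, h⟩, rfl⟩
          have : ψ T (inl F d) = ψ T x := h
          simpa only [this] using hV⟩
    refine ⟨φ ∅, φ '' {T | Tᶜ.Finite}, ?_, ?_⟩
    · refine mem_closure_of_tendsto (b := (atTop : Filter (Finset I))) (f := fun T : Finset I => φ (↑T)ᶜ)
        (tendsto_subtype_rng.2 (tendsto_pi_nhds.2 ?_))
        (.of_forall fun T => ⟨_, by simp, rfl⟩)
      rintro (d | b | a)
      · exact tendsto_const_nhds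
      · exact tendsto_const_nhds
      · refine tendsto_const_nhds.congr' ((eventually_ge_atTop {a}).mono fun T h => ?_)
        simp [φ, ψ, Finset.singleton_subset_iff.1 h]
    · rintro ⟨g, h7, h8⟩
      choose T h9 h10 using h7
      obtain ⟨a, ha⟩ : (⋃ n, (T n)ᶜ)ᶜ.Nonempty := nonempty_compl.2 fun h =>
        not_countable_univ (h ▸ countable_iUnion fun n => (h9 n).countable)
      have h11 := tendsto_pi_nhds.1 (tendsto_subtype_rng.1 h8) (inr F (.inr a))
      have h12 (n) : (g n).1 (inr F (.inr a)) = 1 := by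
        have : a ∈ T n := by_contra fun h => ha (mem_iUnion.2 ⟨n, h⟩)
        simp [← h10, φ, ψ, inr, this]
      simp only [h12] at h11
      simpa [φ, ψ, inr] using tendsto_nhds_unique h11 tendsto_const_nhds

end Pool.Agent.Results.MP_76989b_gt.Counter
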