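import Mathlib
set_option autoImplicit false
namespace Pool.Agent.Results.MP_76989b_gt.Whyburn
open Set Topology Filter
universe u

def Qp (X : Type u) [TopologicalSpace X] : Set (X → ℝ) :=
  {f | ∀ x U V, IsOpen U → x ∈ U → IsOpen V → f x ∈ V →
    ∃ W, IsOpen W ∧ W.Nonempty ∧ W ⊆ U ∧ MapsTo f W V}

def MinBdd {X : Type u} [TopologicalSpace X] (A : Set X) : Prop :=
  A ⊆ closure (interior A) ∧ interior (closure A) ⊆ A

def OmegaS {X : Type u} [TopologicalSpace X] (𝒰 : Set (Set X)) : Prop :=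
  (∀ U ∈ 𝒰, MinBdd U) ∧ ⋃₀ 𝒰 = univ ∧ ∀ F : Set X, F.Finite → ∃ U ∈ 𝒰, F ⊆ U

def GammaS {X : Type u} [TopologicalSpace X] (𝒰 : Set (Set X)) : Prop :=
  (∀ U ∈ 𝒰, MinBdd U) ∧ ⋃₀ 𝒰 = univ ∧ ∀ x, {U ∈ 𝒰 | x ∉ U}.Finite

variable {X : Type u} [TopologicalSpace X]

lemma mb {O A : Set X} (h : IsOpen O) (h1 : interior (closure O) ⊆ A) (h2 : A ⊆ closure O) :
    MinBdd A :=
  ⟨h2.trans (closure_mono (interior_maximal (h.subset_interior_closure.trans h1) h)),
    (interior_mono (closure_minimal h2 isClosed_closure)).trans h1⟩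

lemma sep [T2Space X] {F : Set X} (h : F.Finite) {x : X} (hx : x ∉ F) :
    ∃ O, IsOpen O ∧ F ⊆ O ∧ x ∉ closure O := by
  obtain ⟨U, V, h1, h2, h3, h4, h5⟩ := h.isCompact.separation_of_notMem hx
  exact ⟨U, h1, h3, disjoint_right.1 (h5.closure_left h2) h4⟩

lemma strong [T2Space X] [Infinite X] (hS : ∀ 𝒰 : ℕ → Set (Set X), (∀ n, OmegaS (𝒰 n)) →
      ∃ U : ℕ → Set X, (∀ n, U n ∈ 𝒰 n) ∧ GammaS (range U))
    (P : ℕ → Set X → Prop) (h : ∀ n (F : Set X), F.Finite → ∃ U, MinBdd U ∧ P n U ∧ F ⊆ U) :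
    ∃ U : ℕ → Set X, (∀ n, P n (U n)) ∧ ∀ x, ∀ᶠ n in atTop, x ∈ U n := by
  let e := Infinite.natEmbedding X
  let 𝒱 := fun n => {V : Set X | MinBdd V ∧ (∃ U, P n U ∧ V ⊆ U) ∧ e '' Iio n ⊆ V ∧ ∃ i, e i ∉ V}
  have h1 (n) (F : Set X) (hF : F.Finite) : ∃ V ∈ 𝒱 n, F ⊆ V := by
    have h1 := hF.union ((finite_Iio n).image e)
    obtain ⟨U, h2, h3, h4⟩ := h n _ h1
    obtain ⟨_, ⟨i, rfl⟩, h5⟩ := (infinite_range_of_injective e.injective).exists_notMem_finite h1
    obtain ⟨O, h6, h7, h8⟩ := sep h1 h5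
    refine ⟨(F ∪ e '' Iio n) ∪ interior (closure (O ∩ interior U)), ⟨mb (h6.inter isOpen_interior)
      subset_union_right (union_subset (fun y hy => h6.inter_closure ⟨h7 hy, h2.1 (h4 hy)⟩)
      interior_subset), ⟨U, h3, union_subset h4 ((interior_mono (closure_mono
      (inter_subset_right.trans interior_subset))).trans h2.2)⟩,
      subset_union_right.trans subset_union_left, i, ?_⟩, subset_union_left.trans subset_union_left⟩
    rintro (h | h)
    exacts [h5 h, h8 (closure_mono inter_subset_left (interior_subset h))]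
  obtain ⟨V, h2, -, -, h3⟩ := hS 𝒱 fun n => ⟨fun V h => h.1, eq_univ_of_forall fun x =>
    (h1 n _ (finite_singleton x)).imp fun V h => ⟨h.1, h.2 rfl⟩, h1 n⟩
  choose U h4 h5 using fun n => (h2 n).2.1
  refine ⟨U, h4, fun x => ?_⟩
  rw [← Nat.cofinite_eq_atTop]
  refine ((h3 x).preimage' (f := V) ?_).subset fun n h => ⟨⟨n, rfl⟩, fun h' => h (h5 n h')⟩
  rintro _ ⟨⟨m, rfl⟩, -⟩
  obtain ⟨i, h6⟩ := (h2 m).2.2.2
  exact (finite_Iic i).subset fun n (hn : V n = V m) => (not_lt.1 fun h : i < n =>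
    h6 (hn ▸ (h2 n).2.2.1 ⟨i, h, rfl⟩) : n ≤ i)

lemma qc {f g : X → ℝ} (hg : g ∈ Qp X) {Y : Set X} (hY : IsOpen Y)
    (hf : ∀ y ∈ Y, ContinuousAt f y) {G : Set ℝ} (hG : IsOpen G) :
    {y ∈ Y | g y - f y ∈ G} ⊆ closure (interior {y ∈ Y | g y - f y ∈ G}) := fun y hy =>
  mem_closure_iff.2 fun V hV h => by
    obtain ⟨A, B, h1, h2, h3, h4, h5⟩ := isOpen_prod_iff.1 (hG.preimage continuous_sub) _ _ hy.2
    obtain ⟨W, h6, h7, h8, h9⟩ := hg y (V ∩ Y ∩ interior (f ⁻¹' B)) A
      ((hV.inter hY).inter isOpen_interior) ⟨⟨h, hy.1⟩, mem_interior_iff_mem_nhds.2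
        (hf y hy.1 (h2.mem_nhds h4))⟩ h1 h3
    refine h7.mono fun z hz => ⟨(h8 hz).1.1, interior_maximal (fun z hz => ?_) h6 hz⟩
    exact ⟨(h8 hz).1.2, h5 (mk_mem_prod (h9 hz) (interior_subset (s := f ⁻¹' B) (h8 hz).2))⟩

lemma qc' {f g : X → ℝ} (hg : g ∈ Qp X) {Y : Set X} (hY : IsOpen Y)
    (hf : ∀ y ∈ Y, ContinuousAt f y) {G : Set ℝ} {y : X} (hy : y ∈ Y)
    (h : y ∈ interior (closure (interior {y ∈ Y | g y - f y ∈ G}))) : g y - f y ∈ closure G :=
  by_contra fun h' => by
    obtain ⟨z, h1, h2⟩ := mem_closure_iff.1 (qc hg hY hf isClosed_closure.isOpen_compl ⟨hy, h'⟩) _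
      isOpen_interior h
    obtain ⟨w, h3, h4⟩ := mem_closure_iff.1 (interior_subset h1) _ isOpen_interior h2
    exact (interior_subset h3).2 (subset_closure (interior_subset h4).2)

theorem result (X : Type u) [TopologicalSpace X] [T2Space X]
    (hW : ∀ A : Set X, IsOpen A → ∀ x ∈ closure A \ A,
      ∃ B, IsOpen B ∧ B ⊆ A ∧ closure B \ A = {x})
    (hS : ∀ 𝒰 : ℕ → Set (Set X), (∀ n, OmegaS (𝒰 n)) →
      ∃ U : ℕ → Set X, (∀ n, U n ∈ 𝒰 n) ∧ GammaS (range U)) :
    FrechetUrysohnSpace (Qp X) := by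
  classical
  rcases finite_or_infinite X with _ | _
  · infer_instance
  have hP := strong hS
  have h1 (N : Set X) (hN : IsClosed N) (h : interior N = ∅) : N.Countable := by
    have h1 (x : X) : ∃ B, IsOpen B ∧ x ∈ closure B ∧ closure B ∩ N ⊆ {x} := by
      by_cases hx : x ∈ N
      · obtain ⟨B, h1, -, h2⟩ := hW _ hN.isOpen_compl x
          ⟨by simp [closure_compl, h], not_not_intro hx⟩
        exact ⟨B, h1, (h2.ge rfl).1, fun y hy => h2.le ⟨hy.1, not_not_intro hy.2⟩⟩
      by_cases h' : x ∈ closure (Nᶜ \ {x})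
      · obtain ⟨B, h1, -, h2⟩ := hW _ (hN.isOpen_compl.sdiff isClosed_singleton) x
          ⟨h', fun h => h.2 rfl⟩
        exact ⟨B, h1, (h2.ge rfl).1, fun y hy => h2.le ⟨hy.1, fun h => h.1 hy.2⟩⟩
      refine ⟨{x}, ?_, subset_closure rfl, by simp⟩
      convert hN.isOpen_compl.sdiff (isClosed_closure (s := Nᶜ \ {x}))
      refine (eq_singleton_iff_unique_mem.2 ⟨mem_diff_of_mem hx h', fun y hy => ?_⟩).symm
      exact by_contra fun h => hy.2 (subset_closure ⟨hy.1, h⟩)
    choose B h1 h2 h3 using h1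
    obtain ⟨U, h4, h5⟩ := hP (fun _ U => (U ∩ N).Finite) fun _ F hF =>
      ⟨closure (⋃ x ∈ F, B x), mb (isOpen_biUnion fun x _ => h1 x) interior_subset Subset.rfl,
        hF.subset fun y hy => by
          rw [hF.closure_biUnion] at hy
          obtain ⟨x, h4, h5⟩ := mem_iUnion₂.1 hy.1
          exact (h3 x ⟨h5, hy.2⟩ : y = x) ▸ h4,
        fun x hx => closure_mono (subset_biUnion_of_mem (u := B) hx) (h2 x)⟩
    exact (countable_iUnion fun n => (h4 n).countable).mono fun x hx =>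
      mem_iUnion.2 ((h5 x).exists.imp fun n h => mem_inter h hx)
  refine ⟨fun A f hf => ?_⟩
  let C := {x | ¬ ContinuousAt f.1 x}
  have h2 : C.Countable := by
    let O := fun n : ℕ => ⋃ r : ℝ, interior (f.1 ⁻¹' Metric.ball r (1 / (n + 1)))
    refine (countable_iUnion fun n => h1 (O n)ᶜ (isOpen_iUnion fun _ =>
      isOpen_interior).isClosed_compl (not_nonempty_iff_eq_empty.1 fun ⟨x, hx⟩ => ?_)).mono
      fun x hx => by_contra fun h => hx (Metric.continuousAt_iff'.2 fun ε hε => ?_)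
    · obtain ⟨W, h2, ⟨y, h3⟩, h4, h5⟩ := f.2 x _ _ isOpen_interior hx Metric.isOpen_ball
        (Metric.mem_ball_self (Nat.one_div_pos_of_nat (n := n)))
      exact interior_subset (h4 h3) (mem_iUnion.2 ⟨_, interior_maximal h5 h2 h3⟩)
    · obtain ⟨n, hn⟩ := exists_nat_one_div_lt (half_pos hε)
      obtain ⟨r, hr⟩ := mem_iUnion.1 (by_contra fun h' => h (mem_iUnion.2 ⟨n, h'⟩) : x ∈ O n)
      filter_upwards [mem_interior_iff_mem_nhds.1 hr] with y hy
      have := dist_triangle_right (f.1 y) (f.1 x) r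
      have h2 := Metric.mem_ball.1 (mem_preimage.1 (interior_subset hr))
      have h3 := Metric.mem_ball.1 (mem_preimage.1 hy)
      linarith
  have h3 (c) (hc : c ∈ C) : ∃ B, IsOpen B ∧ c ∈ closure B ∧ c ∉ interior (closure B) := by
    by_contra! h
    refine hc (Metric.continuousAt_iff'.2 fun ε hε => ?_)
    have h3 (y : X) (_ : y ∈ univ) : ContinuousAt (fun _ => f.1 c) y := continuousAt_const
    filter_upwards [isOpen_interior.mem_nhds (h _ isOpen_interior (qc f.2 isOpen_univ h3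
      (Metric.isOpen_ball (x := 0) (ε := ε / 2)) ⟨trivial, by simpa using hε⟩))] with y hy
    have := Metric.closure_ball_subset_closedBall (qc' f.2 isOpen_univ h3 trivial hy)
    rw [Metric.mem_closedBall, dist_zero_right, ← dist_eq_norm] at this
    linarith
  obtain ⟨x₀⟩ : Nonempty X := inferInstance
  obtain ⟨e, he⟩ := (h2.insert x₀).exists_eq_range (insert_nonempty _ _)
  obtain ⟨K, h4, h5⟩ := hP (fun n U => e n.unpair.1 ∈ C → e n.unpair.1 ∉ interior (closure U))
    fun n F hF => by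
      by_cases h : e n.unpair.1 ∈ C
      · obtain ⟨B, h4, h5, h6⟩ := h3 _ h
        obtain ⟨O, h7, h8, h9⟩ := sep (hF.diff (t := {e n.unpair.1})) fun h => h.2 rfl
        refine ⟨closure (B ∪ O), mb (h4.union h7) interior_subset Subset.rfl, fun _ h => h6 ?_,
          fun y hy => ?_⟩
        · rw [closure_closure, closure_union] at h
          exact interior_maximal (fun y hy => (interior_subset hy.1).resolve_right hy.2)
            (isOpen_interior.sdiff isClosed_closure) ⟨h, h9⟩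
        · by_cases h : y = e n.unpair.1
          · exact closure_mono subset_union_left (h ▸ h5)
          · exact subset_closure (Or.inr (h8 ⟨hy, h⟩))
      · exact ⟨univ, by simp [MinBdd], fun h' => (h h').elim, subset_univ _⟩
  let L := fun m => ⋂ n ≥ m, closure (K n)
  have h6 (m) : IsClosed (L m) := isClosed_biInter fun _ _ => isClosed_closure
  have h7 (x) : ∀ᶠ m in atTop, x ∈ L m := (eventually_forall_ge_atTop.2 (h5 x)).mono fun m h =>
    mem_iInter₂.2 fun n hn => subset_closure (h n hn)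
  have h8 (m) (W) (hW : IsOpen W) (h : W ⊆ L m) : Disjoint W (closure C) :=
    (disjoint_left.2 fun c h8 hc => by
      obtain ⟨i, rfl⟩ := he.le (Or.inr hc)
      have := h4 (Nat.pair i m)
      rw [Nat.unpair_pair] at this
      exact this hc (interior_maximal (h.trans (iInter₂_subset _ (Nat.right_le_pair i m))) hW h8)
      ).closure_right hW
  have h9 : (closure C).Countable := (countable_iUnion fun m => h1 (closure C ∩ L m)
    (isClosed_closure.inter (h6 m)) ((h8 m _ isOpen_interior (interior_subset.trans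
      inter_subset_right)).eq_bot_of_le (interior_subset.trans inter_subset_left))).mono
    fun x hx => mem_iUnion.2 ((h7 x).exists.imp fun m h => mem_inter hx h)
  obtain ⟨d, hd⟩ := (h9.insert x₀).exists_eq_range (insert_nonempty _ _)
  have h10 (m) (c) : ∃ B, IsOpen B ∧ closure B ∩ L m ⊆ closure C ∧
      (c ∈ closure C → c ∈ closure B) := by
    by_cases h : c ∈ closure C → c ∈ closure (interior (closure C))
    · exact ⟨_, isOpen_interior, inter_subset_left.trans
        (closure_minimal interior_subset isClosed_closure), h⟩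
    rw [Classical.not_imp] at h
    refine (hW _ (isClosed_closure.union (h6 m)).isOpen_compl c
      ⟨mem_closure_iff.2 fun V hV hc => by_contra fun h' => ?_, fun h' => h' (Or.inl h.1)⟩).imp
      fun B ⟨h10, _, h11⟩ => ⟨h10, fun y hy => (h11.le ⟨hy.1, fun h => h (Or.inr hy.2)⟩ : y = c) ▸
        h.1, fun _ => (h11.ge rfl).1⟩
    have h10 := hV.sdiff (isClosed_closure (s := interior (closure C)))
    refine disjoint_left.1 (h8 m _ h10 fun y hy => by_contra fun h11 => hy.2 (subset_closure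
      (interior_maximal (fun z hz => ?_) (h10.sdiff (h6 m)) ⟨hy, h11⟩))) ⟨hc, h.2⟩ h.1
    exact by_contra fun h12 => h' ⟨z, hz.1.1, fun h => h.elim h12 hz.2⟩
  choose B h10 h11 h12 using h10
  have h13 (y) (hy : y ∈ (closure C)ᶜ) : ContinuousAt f.1 y :=
    by_contra fun h => hy (subset_closure h)
  obtain ⟨U, h14, h15⟩ := hP (fun n U => ∃ g ∈ A, ∀ y ∈ d '' Iio n ∪ ((U ∩ L n) \ closure C),
    dist (g.1 y) (f.1 y) ≤ 1 / (n + 1)) fun n F hF => by
      obtain ⟨g, h14, h15⟩ := mem_closure_iff_nhds.1 hf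
        {g | ∀ y ∈ d '' Iio n ∪ F, dist (g.1 y) (f.1 y) < 1 / (n + 1)}
        ((eventually_all_finite (((finite_Iio n).image d).union hF)).2 fun y _ =>
          ContinuousAt.eventually_lt (((continuous_apply _).comp continuous_subtype_val).dist
            continuous_const).continuousAt continuousAt_const (by simp; positivity))
      let S := {y ∈ (closure C)ᶜ | g.1 y - f.1 y ∈ Metric.ball (0 : ℝ) (1 / (n + 1))}
      have h16 : IsOpen (⋃ c ∈ F, B n c) := isOpen_biUnion fun _ _ => h10 _ _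
      refine ⟨F ∪ interior (closure (interior S ∪ ⋃ c ∈ F, B n c)), mb (isOpen_interior.union h16)
        subset_union_right (union_subset (fun y hy => ?_) interior_subset), ⟨g, h15, ?_⟩,
        subset_union_left⟩
      · by_cases h : y ∈ closure C
        · exact closure_mono ((subset_biUnion_of_mem (u := B n) hy).trans subset_union_right)
            (h12 n y h)
        · exact closure_mono subset_union_left (qc g.2 isClosed_closure.isOpen_compl h13
            Metric.isOpen_ball ⟨h, by simpa [← dist_eq_norm] using h14 y (Or.inr hy)⟩)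
      rintro y (h | ⟨⟨h | h, h17⟩, h18⟩)
      · exact (h14 y (Or.inl h)).le
      · exact (h14 y (Or.inr h)).le
      rw [closure_union] at h
      have := Metric.closure_ball_subset_closedBall (qc' g.2 isClosed_closure.isOpen_compl h13 h18
        (interior_maximal (fun y hy => (interior_subset hy.1).resolve_right hy.2)
          (isOpen_interior.sdiff isClosed_closure) ⟨h, fun h => ?_⟩))
      · rwa [Metric.mem_closedBall, dist_zero_right, ← dist_eq_norm] at this
      rw [hF.closure_biUnion] at h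
      obtain ⟨c, -, h⟩ := mem_iUnion₂.1 h
      exact h18 (h11 n c ⟨h, h17⟩)
  choose g h14 h16 using h14
  refine ⟨g, h14, tendsto_subtype_rng.2 (tendsto_pi_nhds.2 fun x =>
    tendsto_iff_dist_tendsto_zero.2 (squeeze_zero' (.of_forall fun _ => dist_nonneg) ?_
      tendsto_one_div_add_atTop_nhds_zero_nat))⟩
  by_cases h : x ∈ closure C
  · obtain ⟨i, rfl⟩ := hd.le (Or.inr h)
    exact (eventually_gt_atTop i).mono fun n h => h16 n _ (Or.inl ⟨i, h, rfl⟩)
  · exact ((h15 x).and (h7 x)).mono fun n h' => h16 n _ (Or.inr ⟨h', h⟩)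

end Pool.Agent.Results.MP_76989b_gt.Whyburn
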